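import Pool.Agent.Lib.MP_b06f47_pr.UpperMain

open Finset Filter Topology Pool.Agent.Lib.MP_b06f47_pr

namespace Pool.Agent.Results.MP_b06f47_pr.SecondOrderTerm

lemma ee_eq (k n : ℕ) :
    ee k n = Real.sqrt (Real.log n) / (n : ℝ) ^ ((k : ℝ) / 2) := by
  unfold ee
  rw [Real.sqrt_div' _ (by positivity)]
  congr 1
  rw [Real.sqrt_eq_rpow, ← Real.rpow_natCast, ← Real.rpow_mul (Nat.cast_nonneg n)]
  congr 1
  ring

/-- **The second-order term of the critical probability of majority bootstrap percolation on the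
distance-`k` hypercube.** For every `k ≥ 2` there are constants `0 < c ≤ C` such that for all
large `n` the critical probability `p_c(Q_{k,n}, N/2)`, where `N = ∑_{i=1}^k (n choose i)`,
satisfies `1/2 - C √(log n) / n^(k/2) ≤ p_c ≤ 1/2 - c √(log n) / n^(k/2)`. -/
theorem result (k : ℕ) (hk : 2 ≤ k) :
    ∃ c C : ℝ, 0 < c ∧ c ≤ C ∧ ∀ᶠ n : ℕ in atTop,
      1 / 2 - C * (Real.sqrt (Real.log n) / (n : ℝ) ^ ((k : ℝ) / 2))
          ≤ critProb (distCube k n) ((cubeDegree k n : ℝ) / 2) ∧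
      critProb (distCube k n) ((cubeDegree k n : ℝ) / 2)
          ≤ 1 / 2 - c * (Real.sqrt (Real.log n) / (n : ℝ) ^ ((k : ℝ) / 2)) := by
  obtain ⟨C, hC, hlow⟩ := lower_main hk
  obtain ⟨c, hc0, hc1, hup⟩ := upper_main hk
  refine ⟨c, max C 1, hc0, hc1.trans (le_max_right _ _), ?_⟩
  filter_upwards [hlow, hup] with n hn1 hn2
  rw [← ee_eq]
  have he := ee_nonneg k n
  obtain ⟨h1, h2⟩ := hn1
  obtain ⟨h3, h4⟩ := hn2
  rw [← percProb_eq_Pr] at h2 h4
  set S : Set ℝ := {p : ℝ | 0 < p ∧ p < 1 ∧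
    percProb (distCube k n) ((cubeDegree k n : ℝ) / 2) p ≤ 1 / 2} with hS
  have hmem : 1 / 2 - C * ee k n ∈ S := by
    have h5 : 0 ≤ C * ee k n := by positivity
    exact ⟨h1, by linarith, h2⟩
  have hbdd : BddAbove S := ⟨1, fun p hp => hp.2.1.le⟩
  constructor
  · have h5 : C * ee k n ≤ max C 1 * ee k n := by gcongr; exact le_max_left _ _
    refine le_trans ?_ (le_csSup hbdd hmem)
    linarith
  · refine csSup_le ⟨_, hmem⟩ ?_
    rintro p ⟨hp0, hp1, hp2⟩
    by_contra hcon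
    push Not at hcon
    rw [percProb_eq_Pr] at h4 hp2
    have h6 := Pr_mono_p h3.le hcon.le hp1.le (univ : Finset (Fin n → Bool))
      (E := Percolates (distCube k n) ((cubeDegree k n : ℝ) / 2))
      (fun A B hAB hA => hA.mono hAB)
    linarith

end Pool.Agent.Results.MP_b06f47_pr.SecondOrderTerm
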